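import Mathlib

/-!
# The regular polygon does not minimise the anisotropic Cheeger functional of the disk

For every even `n ≥ 24` there is a centrally symmetric convex polygon `P` with exactly `n` sides such
that `𝒥_B[P] < 𝒥_B[P*_n]`, where `P*_n` is the regular `n`-gon. So the answer to Q1 is negative.

Lower bound. If `K` contains the disk `B` then the fields `l x` (cut off) with `l < 1` are admissible
in the dual definition of the perimeter, so that `h_K(B) ≥ 2`. The polar set of the circumscribed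
regular `n`-gon contains the disk of radius `cos (π / n)`, hence
`𝒥_B[P*_n] ≥ 2 √π cos (π / n) ≥ 3.51` for `n ≥ 24`.

Upper bound. Let `Q = (-1, 1)²`. The set `E = B ∩ (-s, s)²`, `s = cos (π / 8)`, satisfies
`P_K(E) ≤ 8 s` for all `K ⊆ Q` and `|E| = π / 2 + √2`. We replace the square by a polygon `P ⊆ Q`
with exactly `n` sides which contains the square `(-c, c)²`, `c = 0.999`; then `|P°| ≤ 2 / c²` and
`𝒥_B[P] ≤ 8 √2 s / ((π / 2 + √2) c) < 3.506`.
-/

set_option autoImplicit false

open MeasureTheory Set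
open scoped ENNReal

namespace Pool.Agent.Results.MP_4eea03_an.NotRegular

/-- Euclidean inner product of the plane `ℝ × ℝ`. -/
def dot (x y : ℝ × ℝ) : ℝ := x.1 * y.1 + x.2 * y.2

/-- The class `𝒦₂`: nonempty, open, bounded, convex, centrally symmetric plane sets. -/
structure IsBody (K : Set (ℝ × ℝ)) : Prop where
  nonempty : K.Nonempty
  isOpen : IsOpen K
  bounded : Bornology.IsBounded K
  convex : Convex ℝ K
  neg_mem : ∀ x ∈ K, -x ∈ K

/-- The polar norm `Φ_K°(x) = sup {x · y : y ∈ K}`. -/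
noncomputable def polarNorm (K : Set (ℝ × ℝ)) (x : ℝ × ℝ) : ℝ := sSup ((fun y => dot x y) '' K)

/-- The polar set `K° = {x : Φ_K°(x) < 1}`. -/
def polarSet (K : Set (ℝ × ℝ)) : Set (ℝ × ℝ) := {x | polarNorm K x < 1}

/-- The divergence of a vector field. -/
noncomputable def divergence (T : ℝ × ℝ → ℝ × ℝ) (x : ℝ × ℝ) : ℝ :=
  (fderiv ℝ T x (1, 0)).1 + (fderiv ℝ T x (0, 1)).2

/-- The anisotropic perimeter `P_K(E)`, the integral of `Φ_K°(ν_E)` over the reduced boundary of `E`,
written in De Giorgi's dual form: the supremum of the integrals over `E` of `div T` over the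
compactly supported vector fields `T` of class `C¹` with values in the closure of `K`
(infinite if `E` does not have finite perimeter). -/
noncomputable def perimeter (K E : Set (ℝ × ℝ)) : ℝ≥0∞ :=
  ⨆ T : {T : ℝ × ℝ → ℝ × ℝ // ContDiff ℝ 1 T ∧ HasCompactSupport T ∧ ∀ x, T x ∈ closure K},
    ENNReal.ofReal (∫ x in E, divergence T.1 x)

/-- The anisotropic Cheeger constant `h_K(Ω) = inf {P_K(E) / |E| : E ⊆ Ω, |E| > 0}`. -/
noncomputable def cheeger (K Ω : Set (ℝ × ℝ)) : ℝ≥0∞ :=
  ⨅ E : {E : Set (ℝ × ℝ) // MeasurableSet E ∧ E ⊆ Ω ∧ 0 < volume E}, perimeter K E.1 / volume E.1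

/-- The functional `𝒥_Ω[K] = h_K(Ω) |K°|^(1/2)`. -/
noncomputable def JJ (Ω K : Set (ℝ × ℝ)) : ℝ≥0∞ :=
  cheeger K Ω * (volume (polarSet K)) ^ (1 / 2 : ℝ)

/-- The open unit disk `B`. -/
def disk : Set (ℝ × ℝ) := {x | x.1 ^ 2 + x.2 ^ 2 < 1}

/-- The regular `n`-gon circumscribed about the unit disk. -/
def regularPolygon (n : ℕ) : Set (ℝ × ℝ) :=
  {x | ∀ k : ℕ, k < n →
    dot x (Real.cos (2 * Real.pi * k / n), Real.sin (2 * Real.pi * k / n)) < 1}

/-- The class `𝒫_n`: the elements of `𝒦₂` that are (interiors of) convex polygons with exactly `n`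
vertices, equivalently with exactly `n` sides. -/
def IsPolygon (n : ℕ) (K : Set (ℝ × ℝ)) : Prop :=
  IsBody K ∧ ∃ V : Finset (ℝ × ℝ), V.card = n ∧
    (∀ v ∈ V, v ∉ convexHull ℝ ((V : Set (ℝ × ℝ)) \ {v})) ∧
    K = interior (convexHull ℝ (V : Set (ℝ × ℝ)))

/-! ### Lower bound for bodies containing the disk -/

lemma measurableSet_disk : MeasurableSet disk := by
  unfold disk
  exact measurableSet_lt (by fun_prop) (by fun_prop)

/-- the test field -/
noncomputable def fld (l : ℝ) (x : ℝ × ℝ) : ℝ × ℝ :=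
  (l * Real.smoothTransition (((1 / l) ^ 2 - (x.1 ^ 2 + x.2 ^ 2)) / ((1 / l) ^ 2 - 1))) • x

lemma fld_contDiff (l : ℝ) : ContDiff ℝ 1 (fld l) := by
  unfold fld
  have h : ContDiff ℝ 1 (fun x : ℝ × ℝ =>
      ((1 / l) ^ 2 - (x.1 ^ 2 + x.2 ^ 2)) / ((1 / l) ^ 2 - 1)) := by
    have h1 : ContDiff ℝ 1 (fun x : ℝ × ℝ => x.1) := contDiff_fst
    have h2 : ContDiff ℝ 1 (fun x : ℝ × ℝ => x.2) := contDiff_snd
    exact ((contDiff_const.sub ((h1.pow 2).add (h2.pow 2))).div_const _)
  have h3 : ContDiff ℝ 1 (fun x : ℝ × ℝ => Real.smoothTransition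
      (((1 / l) ^ 2 - (x.1 ^ 2 + x.2 ^ 2)) / ((1 / l) ^ 2 - 1))) :=
    (Real.smoothTransition.contDiff (n := 1)).comp h
  exact (contDiff_const.mul h3).smul contDiff_id

lemma one_lt_sq {l : ℝ} (h0 : 0 < l) (h1 : l < 1) : 1 < (1 / l) ^ 2 := by
  have : 1 < 1 / l := by
    rw [lt_div_iff₀ h0]; linarith
  nlinarith

lemma fld_zero {l : ℝ} (h0 : 0 < l) (h1 : l < 1) {x : ℝ × ℝ} (hx : (1 / l) ^ 2 ≤ x.1 ^ 2 + x.2 ^ 2) :
    fld l x = 0 := by
  unfold fld
  have h := one_lt_sq h0 h1
  rw [Real.smoothTransition.zero_of_nonpos (div_nonpos_of_nonpos_of_nonneg (by linarith) (by linarith))]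
  simp

lemma fld_mem {l : ℝ} (h0 : 0 < l) (h1 : l < 1) (x : ℝ × ℝ) : fld l x ∈ disk := by
  by_cases hx : (1 / l) ^ 2 ≤ x.1 ^ 2 + x.2 ^ 2
  · rw [fld_zero h0 h1 hx]; simp [disk]
  · push Not at hx
    set a := Real.smoothTransition (((1 / l) ^ 2 - (x.1 ^ 2 + x.2 ^ 2)) / ((1 / l) ^ 2 - 1)) with ha
    have ha0 : 0 ≤ a := Real.smoothTransition.nonneg _
    have ha1 : a ≤ 1 := Real.smoothTransition.le_one _
    have hf : fld l x = (l * a) • x := rfl
    rw [hf]
    simp only [disk, mem_ofPred_eq, Prod.smul_fst, Prod.smul_snd, smul_eq_mul]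
    have h2 : l ^ 2 * (x.1 ^ 2 + x.2 ^ 2) < 1 := by
      have : l ^ 2 * (x.1 ^ 2 + x.2 ^ 2) < l ^ 2 * (1 / l) ^ 2 :=
        mul_lt_mul_of_pos_left hx (by positivity)
      have h3 : l ^ 2 * (1 / l) ^ 2 = 1 := by field_simp
      linarith
    have h4 : (l * a * x.1) ^ 2 + (l * a * x.2) ^ 2 = a ^ 2 * (l ^ 2 * (x.1 ^ 2 + x.2 ^ 2)) := by ring
    rw [h4]
    have h5 : a ^ 2 ≤ 1 := by nlinarith
    have h6 : 0 ≤ l ^ 2 * (x.1 ^ 2 + x.2 ^ 2) := by positivity
    nlinarith

lemma fld_support {l : ℝ} (h0 : 0 < l) (h1 : l < 1) : HasCompactSupport (fld l) := by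
  refine HasCompactSupport.of_support_subset_isCompact
    (K := Metric.closedBall (0 : ℝ × ℝ) (1 / l)) (isCompact_closedBall _ _) ?_
  intro x hx
  by_contra hc
  apply hx
  refine fld_zero h0 h1 ?_
  rw [mem_closedBall_zero_iff, not_le, Prod.norm_def, lt_max_iff] at hc
  have hl : 0 < 1 / l := by positivity
  rcases hc with hc | hc
  · rw [Real.norm_eq_abs] at hc
    have : (1 / l) ^ 2 ≤ x.1 ^ 2 := by
      rw [← sq_abs x.1]; nlinarith
    nlinarith [sq_nonneg x.2]
  · rw [Real.norm_eq_abs] at hc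
    have : (1 / l) ^ 2 ≤ x.2 ^ 2 := by
      rw [← sq_abs x.2]; nlinarith
    nlinarith [sq_nonneg x.1]

lemma isOpen_disk : IsOpen disk := by
  unfold disk
  exact isOpen_lt (by fun_prop) (by fun_prop)

lemma fld_div {l : ℝ} (h0 : 0 < l) (h1 : l < 1) {x : ℝ × ℝ} (hx : x ∈ disk) :
    divergence (fld l) x = 2 * l := by
  have he : fld l =ᶠ[nhds x] fun y => l • y := by
    filter_upwards [isOpen_disk.mem_nhds hx] with y hy
    unfold fld
    have h := one_lt_sq h0 h1
    rw [Real.smoothTransition.one_of_one_le, mul_one]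
    rw [le_div_iff₀ (by linarith)]
    have : y.1 ^ 2 + y.2 ^ 2 < 1 := hy
    linarith
  have hd : fderiv ℝ (fld l) x = l • ContinuousLinearMap.id ℝ (ℝ × ℝ) := by
    rw [he.fderiv_eq]
    have := ((hasFDerivAt_id (𝕜 := ℝ) x).const_smul l).fderiv
    exact this
  unfold divergence
  rw [hd]
  simp
  ring

lemma two_le_cheeger {K : Set (ℝ × ℝ)} (hK : disk ⊆ K) : 2 ≤ cheeger K disk := by
  unfold cheeger
  refine le_iInf ?_
  rintro ⟨E, hE, hEd, hE0⟩
  simp only
  have hfin : volume E ≠ ⊤ := by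
    have hb : Bornology.IsBounded disk := by
      refine (Metric.isBounded_closedBall (x := (0 : ℝ × ℝ)) (r := 1)).subset ?_
      intro y hy
      have hy' : y.1 ^ 2 + y.2 ^ 2 < 1 := hy
      rw [mem_closedBall_zero_iff, Prod.norm_def, max_le_iff, Real.norm_eq_abs, Real.norm_eq_abs]
      constructor
      · rw [← sq_le_one_iff_abs_le_one]; nlinarith [sq_nonneg y.2]
      · rw [← sq_le_one_iff_abs_le_one]; nlinarith [sq_nonneg y.1]
    exact ((hb.subset hEd).measure_lt_top).ne
  have key : ∀ l : ℝ, 0 < l → l < 1 → ENNReal.ofReal (2 * l) * volume E ≤ perimeter K E := by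
    intro l h0 h1
    unfold perimeter
    refine le_trans ?_ (le_iSup _ ⟨fld l, fld_contDiff l, fld_support h0 h1,
      fun x => subset_closure (hK (fld_mem h0 h1 x))⟩)
    simp only
    have h2 : ∫ x in E, divergence (fld l) x = 2 * l * (volume E).toReal := by
      rw [setIntegral_congr_fun (g := fun _ => 2 * l) hE (fun x hx => fld_div h0 h1 (hEd hx))]
      rw [setIntegral_const, smul_eq_mul, Measure.real]
      ring
    rw [h2, ENNReal.ofReal_mul (p := 2 * l) (by positivity), ENNReal.ofReal_toReal hfin]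
  have h3 : (2 : ℝ≥0∞) * volume E ≤ perimeter K E := by
    have ht : Filter.Tendsto (fun l : ℝ => ENNReal.ofReal (2 * l) * volume E) (nhdsWithin 1 (Iio 1))
        (nhds (ENNReal.ofReal (2 * 1) * volume E)) := by
      refine ENNReal.Tendsto.mul_const ?_ (Or.inr hfin)
      exact (ENNReal.continuous_ofReal.comp (continuous_const.mul continuous_id)).continuousAt.tendsto.mono_left
        nhdsWithin_le_nhds
    have h4 : ENNReal.ofReal (2 * 1) = 2 := by norm_num
    rw [h4] at ht
    refine le_of_tendsto ht ?_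
    filter_upwards [Ioo_mem_nhdsLT (show (0 : ℝ) < 1 by norm_num)] with l hl
    exact key l hl.1 hl.2
  rw [ENNReal.le_div_iff_mul_le (Or.inl hE0.ne') (Or.inl hfin)]
  exact h3

/-! ### Area of the polar set of the regular polygon -/

lemma dot_le (x y : ℝ × ℝ) : dot x y ^ 2 ≤ (x.1 ^ 2 + x.2 ^ 2) * (y.1 ^ 2 + y.2 ^ 2) := by
  unfold dot
  nlinarith [sq_nonneg (x.1 * y.2 - x.2 * y.1)]

lemma disk_subset_regularPolygon (n : ℕ) : disk ⊆ regularPolygon n := by
  intro x hx k _
  have hx' : x.1 ^ 2 + x.2 ^ 2 < 1 := hx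
  have h := dot_le x (Real.cos (2 * Real.pi * k / n), Real.sin (2 * Real.pi * k / n))
  simp only [Real.cos_sq_add_sin_sq, mul_one] at h
  nlinarith

/-- points of the regular polygon lie in the disk of radius `1 / cos (π / n)` -/
lemma regularPolygon_norm {n : ℕ} (hn : 3 ≤ n) {y : ℝ × ℝ} (hy : y ∈ regularPolygon n) :
    Real.sqrt (y.1 ^ 2 + y.2 ^ 2) * Real.cos (Real.pi / n) < 1 := by
  have hn0 : (0 : ℝ) < n := by positivity
  have hnN : 0 < n := by omega
  set z : ℂ := ⟨y.1, y.2⟩ with hz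
  set r := ‖z‖ with hr
  set a := Complex.arg z with ha
  have hrs : Real.sqrt (y.1 ^ 2 + y.2 ^ 2) = r := by
    rw [hr, Complex.norm_def, Complex.normSq_apply]
    congr 1
    simp only [hz]; ring
  rw [hrs]
  have h1 : r * Real.cos a = y.1 := Complex.norm_mul_cos_arg z
  have h2 : r * Real.sin a = y.2 := Complex.norm_mul_sin_arg z
  set m : ℤ := round (a * n / (2 * Real.pi)) with hm
  have hpi := Real.pi_pos
  have h3 : |a - 2 * Real.pi * m / n| ≤ Real.pi / n := by
    have h := abs_sub_round (a * n / (2 * Real.pi))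
    have h4 : a - 2 * Real.pi * m / n = (a * n / (2 * Real.pi) - m) * (2 * Real.pi / n) := by
      field_simp
    rw [h4, abs_mul, abs_of_pos (show 0 < 2 * Real.pi / n by positivity)]
    calc |a * n / (2 * Real.pi) - m| * (2 * Real.pi / n)
        ≤ 1 / 2 * (2 * Real.pi / n) := by
          apply mul_le_mul_of_nonneg_right h (by positivity)
      _ = Real.pi / n := by ring
  have h5 : Real.cos (Real.pi / n) ≤ Real.cos (a - 2 * Real.pi * m / n) := by
    rw [← Real.cos_abs (a - 2 * Real.pi * m / n)]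
    apply Real.cos_le_cos_of_nonneg_of_le_pi (abs_nonneg _) _ h3
    rw [div_le_iff₀ hn0]
    have : (1 : ℝ) ≤ n := by exact_mod_cast (by omega : 1 ≤ n)
    nlinarith
  -- reduce `m` modulo `n`
  obtain ⟨k, hk⟩ : ∃ k : ℕ, (k : ℤ) = m % n := ⟨(m % n).toNat, by
    rw [Int.toNat_of_nonneg (Int.emod_nonneg _ (by omega))]⟩
  have hkn : k < n := by
    have := Int.emod_lt_of_pos m (show (0 : ℤ) < n by exact_mod_cast hnN)
    omega
  have hmk : (m : ℝ) = k + n * ((m / n : ℤ) : ℝ) := by
    have h := Int.emod_add_mul_ediv m n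
    rw [← hk] at h
    have h' : (((k : ℤ) + n * (m / n) : ℤ) : ℝ) = (m : ℝ) := by rw [h]
    push_cast at h'
    linarith
  have hang : 2 * Real.pi * m / n = 2 * Real.pi * k / n + (m / n : ℤ) * (2 * Real.pi) := by
    rw [hmk]; field_simp
  have h6 := hy k hkn
  simp only [dot] at h6
  have h7 : r * Real.cos (a - 2 * Real.pi * m / n) =
      y.1 * Real.cos (2 * Real.pi * k / n) + y.2 * Real.sin (2 * Real.pi * k / n) := by
    rw [Real.cos_sub, hang, Real.cos_add_int_mul_two_pi, Real.sin_add_int_mul_two_pi, ← h1, ← h2]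
    ring
  have h8 : r * Real.cos (Real.pi / n) ≤ r * Real.cos (a - 2 * Real.pi * m / n) :=
    mul_le_mul_of_nonneg_left h5 (norm_nonneg _)
  linarith

lemma zero_mem_regularPolygon (n : ℕ) : (0 : ℝ × ℝ) ∈ regularPolygon n :=
  disk_subset_regularPolygon n (by simp [disk])

lemma disk_subset_polar {n : ℕ} (hn : 3 ≤ n) :
    {x : ℝ × ℝ | x.1 ^ 2 + x.2 ^ 2 < Real.cos (Real.pi / n) ^ 2} ⊆ polarSet (regularPolygon n) := by
  intro x hx
  have hx' : x.1 ^ 2 + x.2 ^ 2 < Real.cos (Real.pi / n) ^ 2 := hx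
  have hc : 0 < Real.cos (Real.pi / n) := by
    apply Real.cos_pos_of_mem_Ioo
    have hpi := Real.pi_pos
    have hn0 : (3 : ℝ) ≤ n := by exact_mod_cast hn
    constructor
    · have : 0 < Real.pi / n := by positivity
      linarith
    · rw [div_lt_div_iff₀ (by positivity) (by norm_num)]
      nlinarith
  set c := Real.cos (Real.pi / n) with hcdef
  have hlt : Real.sqrt (x.1 ^ 2 + x.2 ^ 2) < c := by
    rw [Real.sqrt_lt' hc]; exact hx'
  show polarNorm (regularPolygon n) x < 1
  unfold polarNorm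
  have hle : sSup ((fun y => dot x y) '' regularPolygon n) ≤
      Real.sqrt (x.1 ^ 2 + x.2 ^ 2) / c := by
    apply csSup_le
    · exact ⟨_, ⟨0, zero_mem_regularPolygon n, rfl⟩⟩
    · rintro _ ⟨y, hy, rfl⟩
      have h1 := regularPolygon_norm hn hy
      have h2 := dot_le x y
      have h3 : dot x y ≤ Real.sqrt (x.1 ^ 2 + x.2 ^ 2) * Real.sqrt (y.1 ^ 2 + y.2 ^ 2) := by
        rw [← Real.sqrt_mul (by positivity)]
        exact Real.le_sqrt_of_sq_le h2
      simp only
      rw [le_div_iff₀ hc]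
      have h4 : 0 ≤ Real.sqrt (x.1 ^ 2 + x.2 ^ 2) := Real.sqrt_nonneg _
      calc dot x y * c ≤ Real.sqrt (x.1 ^ 2 + x.2 ^ 2) * Real.sqrt (y.1 ^ 2 + y.2 ^ 2) * c :=
            mul_le_mul_of_nonneg_right h3 hc.le
        _ = Real.sqrt (x.1 ^ 2 + x.2 ^ 2) * (Real.sqrt (y.1 ^ 2 + y.2 ^ 2) * c) := by ring
        _ ≤ Real.sqrt (x.1 ^ 2 + x.2 ^ 2) * 1 := mul_le_mul_of_nonneg_left h1.le h4
        _ = _ := mul_one _
  refine lt_of_le_of_lt hle ?_
  rw [div_lt_one hc]
  exact hlt

lemma volume_disk {r : ℝ} (hr : 0 < r) :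
    volume {x : ℝ × ℝ | x.1 ^ 2 + x.2 ^ 2 < r ^ 2} = ENNReal.ofReal (Real.pi * r ^ 2) := by
  have h1 : Complex.measurableEquivRealProd ⁻¹' {x : ℝ × ℝ | x.1 ^ 2 + x.2 ^ 2 < r ^ 2} =
      Metric.ball (0 : ℂ) r := by
    ext z
    simp only [mem_preimage, mem_ofPred_eq, Complex.measurableEquivRealProd_apply,
      mem_ball_zero_iff, Complex.norm_def]
    rw [Real.sqrt_lt' hr, Complex.normSq_apply]
    constructor <;> intro h <;> nlinarith
  have h2 := Complex.volume_preserving_equiv_real_prod.measure_preimage_equiv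
    {x : ℝ × ℝ | x.1 ^ 2 + x.2 ^ 2 < r ^ 2}
  rw [← h2, h1, Complex.volume_ball, ENNReal.ofReal_mul Real.pi_pos.le, mul_comm,
    ENNReal.ofReal_pow hr.le]
  congr 1
  rw [← NNReal.coe_real_pi, ENNReal.ofReal_coe_nnreal]

/-- the lower bound for the regular polygon -/
lemma lower_regular {n : ℕ} (hn : 3 ≤ n) :
    2 * (ENNReal.ofReal (Real.pi * Real.cos (Real.pi / n) ^ 2)) ^ (1 / 2 : ℝ) ≤
      JJ disk (regularPolygon n) := by
  unfold JJ
  have hc : 0 < Real.cos (Real.pi / n) := by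
    apply Real.cos_pos_of_mem_Ioo
    have hpi := Real.pi_pos
    have hn0 : (3 : ℝ) ≤ n := by exact_mod_cast hn
    constructor
    · have : 0 < Real.pi / n := by positivity
      linarith
    · rw [div_lt_div_iff₀ (by positivity) (by norm_num)]
      nlinarith
  refine mul_le_mul' (two_le_cheeger (disk_subset_regularPolygon n)) ?_
  refine ENNReal.rpow_le_rpow ?_ (by norm_num)
  rw [← volume_disk hc]
  exact measure_mono (disk_subset_polar hn)

/-! ### The competitor: a set of small perimeter with respect to the square -/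

/-- the number `cos (π / 8)` -/
noncomputable def cs : ℝ := Real.cos (Real.pi / 8)

lemma cs_pos : 0 < cs := by
  unfold cs
  apply Real.cos_pos_of_mem_Ioo
  have := Real.pi_pos
  constructor <;> linarith

lemma cs_lt_one : cs < 1 := by
  unfold cs
  rw [← Real.cos_zero]
  have := Real.pi_pos
  exact Real.cos_lt_cos_of_nonneg_of_le_pi le_rfl (by linarith) (by linarith)

/-- half of the length of the vertical section of the test set -/
noncomputable def hb (x : ℝ) : ℝ := min cs (Real.sqrt (1 - x ^ 2))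

/-- the test set, the intersection of the disk with a square -/
def tset : Set (ℝ × ℝ) := {x | x.1 ^ 2 + x.2 ^ 2 < 1 ∧ |x.1| < cs ∧ |x.2| < cs}

lemma tset_subset : tset ⊆ disk := fun _ hx => hx.1

lemma isOpen_tset : IsOpen tset := by
  have h1 : IsOpen {x : ℝ × ℝ | x.1 ^ 2 + x.2 ^ 2 < 1} := isOpen_lt (by fun_prop) (by fun_prop)
  have h2 : IsOpen {x : ℝ × ℝ | |x.1| < cs} := isOpen_lt (by fun_prop) (by fun_prop)
  have h3 : IsOpen {x : ℝ × ℝ | |x.2| < cs} := isOpen_lt (by fun_prop) (by fun_prop)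
  exact h1.inter (h2.inter h3)

lemma hb_pos {x : ℝ} (hx : |x| < cs) : 0 < hb x := by
  unfold hb
  apply lt_min cs_pos
  apply Real.sqrt_pos.2
  have h1 : |x| < 1 := hx.trans cs_lt_one
  have : x ^ 2 < 1 := (sq_lt_one_iff_abs_lt_one x).2 h1
  linarith

lemma mem_tset {x y : ℝ} : (x, y) ∈ tset ↔ |x| < cs ∧ |y| < hb x := by
  unfold tset hb
  simp only [mem_ofPred_eq, lt_min_iff]
  constructor
  · rintro ⟨h1, h2, h3⟩
    refine ⟨h2, h3, ?_⟩
    apply Real.lt_sqrt_of_sq_lt
    rw [sq_abs]; linarith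
  · rintro ⟨h2, h3, h4⟩
    refine ⟨?_, h2, h3⟩
    have h5 : 0 ≤ |y| := abs_nonneg y
    have := (Real.lt_sqrt h5).1 h4
    rw [sq_abs] at this
    linarith

/-- integral of a second partial derivative over the test set -/
lemma integral_tset_snd {g : ℝ × ℝ → ℝ} (hg : ContDiff ℝ 1 g) (hs : HasCompactSupport g)
    (hb1 : ∀ x, |g x| ≤ 1) :
    ∫ x in tset, fderiv ℝ g x (0, 1) ≤ 4 * cs := by
  have hcont : Continuous fun x => fderiv ℝ g x (0, 1) :=
    (hg.continuous_fderiv one_ne_zero).clm_apply continuous_const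
  have hsupp : HasCompactSupport fun x => fderiv ℝ g x (0, 1) := hs.fderiv_apply ℝ (0, 1)
  have hint : Integrable fun x => fderiv ℝ g x (0, 1) := hcont.integrable_of_hasCompactSupport hsupp
  rw [← integral_indicator isOpen_tset.measurableSet]
  have hint2 : Integrable (tset.indicator fun x => fderiv ℝ g x (0, 1))
      ((volume : Measure ℝ).prod (volume : Measure ℝ)) :=
    hint.indicator isOpen_tset.measurableSet
  rw [Measure.volume_eq_prod, integral_prod _ hint2]
  have hsec : ∀ x : ℝ, ∫ y, tset.indicator (fun x => fderiv ℝ g x (0, 1)) (x, y) ≤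
      (Ioo (-cs) cs).indicator (fun _ => (2 : ℝ)) x := by
    intro x
    by_cases hx : |x| < cs
    · rw [indicator_of_mem (show x ∈ Ioo (-cs) cs from abs_lt.1 hx)]
      have h1 : ∀ y, tset.indicator (fun x => fderiv ℝ g x (0, 1)) (x, y) =
          (Ioo (-(hb x)) (hb x)).indicator (fun y => fderiv ℝ g (x, y) (0, 1)) y := by
        intro y
        by_cases hy : |y| < hb x
        · rw [indicator_of_mem (mem_tset.2 ⟨hx, hy⟩),
            indicator_of_mem (show y ∈ Ioo (-(hb x)) (hb x) from abs_lt.1 hy)]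
        · rw [indicator_of_notMem (fun h => hy (mem_tset.1 h).2),
            indicator_of_notMem (fun h : y ∈ Ioo (-(hb x)) (hb x) => hy (abs_lt.2 h))]
      simp_rw [h1]
      rw [integral_indicator measurableSet_Ioo, ← integral_Ioc_eq_integral_Ioo,
        ← intervalIntegral.integral_of_le (by have := hb_pos hx; linarith)]
      have hd : ∀ y : ℝ, HasDerivAt (fun y => g (x, y)) (fderiv ℝ g (x, y) (0, 1)) y := by
        intro y
        have hgd : HasFDerivAt g (fderiv ℝ g (x, y)) (x, y) :=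
          (hg.differentiable one_ne_zero (x, y)).hasFDerivAt
        have hl : HasDerivAt (fun y : ℝ => (x, y)) ((0 : ℝ), (1 : ℝ)) y :=
          (hasDerivAt_const y x).prodMk (hasDerivAt_id y)
        exact hgd.comp_hasDerivAt y hl
      rw [intervalIntegral.integral_eq_sub_of_hasDerivAt (fun y _ => hd y)]
      · have h2 := hb1 (x, hb x)
        have h3 := hb1 (x, -(hb x))
        rw [abs_le] at h2 h3
        linarith
      · have hc2 : Continuous fun y : ℝ => fderiv ℝ g (x, y) (0, 1) :=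
          hcont.comp (by fun_prop : Continuous fun y : ℝ => (x, y))
        exact hc2.intervalIntegrable _ _
    · rw [indicator_of_notMem (fun h : x ∈ Ioo (-cs) cs => hx (abs_lt.2 h))]
      have h1 : ∀ y, tset.indicator (fun x => fderiv ℝ g x (0, 1)) (x, y) = 0 := fun y =>
        indicator_of_notMem (fun h => hx (mem_tset.1 h).1) _
      simp_rw [h1]
      simp
  have hfin : ∫ x, (Ioo (-cs) cs).indicator (fun _ => (2 : ℝ)) x = 4 * cs := by
    rw [integral_indicator measurableSet_Ioo, setIntegral_const, Real.volume_real_Ioo_of_le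
      (by have := cs_pos; linarith), smul_eq_mul]
    ring
  rw [← hfin]
  apply integral_mono hint2.integral_prod_left _ hsec
  exact (integrable_indicator_iff measurableSet_Ioo).2 (integrableOn_const (by simp))

lemma swap_tset : Prod.swap ⁻¹' tset = tset := by
  ext ⟨x, y⟩
  simp only [tset, mem_preimage, Prod.swap_prod_mk, mem_ofPred_eq]
  constructor
  · rintro ⟨h1, h2, h3⟩; exact ⟨by linarith, h3, h2⟩
  · rintro ⟨h1, h2, h3⟩; exact ⟨by linarith, h3, h2⟩

/-- integral of a first partial derivative over the test set -/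
lemma integral_tset_fst {g : ℝ × ℝ → ℝ} (hg : ContDiff ℝ 1 g) (hs : HasCompactSupport g)
    (hb1 : ∀ x, |g x| ≤ 1) :
    ∫ x in tset, fderiv ℝ g x (1, 0) ≤ 4 * cs := by
  have h := integral_tset_snd (g := g ∘ Prod.swap) (hg.comp (contDiff_snd.prodMk contDiff_fst))
    (hs.comp_homeomorph (Homeomorph.prodComm ℝ ℝ)) (fun x => hb1 _)
  have h1 : ∀ x : ℝ × ℝ, fderiv ℝ (g ∘ Prod.swap) x (0, 1) = fderiv ℝ g x.swap (1, 0) := by
    intro x
    have hgd : HasFDerivAt g (fderiv ℝ g x.swap) x.swap :=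
      (hg.differentiable one_ne_zero x.swap).hasFDerivAt
    have hsw : HasFDerivAt (Prod.swap : ℝ × ℝ → ℝ × ℝ)
        ((ContinuousLinearMap.snd ℝ ℝ ℝ).prod (ContinuousLinearMap.fst ℝ ℝ ℝ)) x :=
      (hasFDerivAt_snd).prodMk hasFDerivAt_fst
    rw [(hgd.comp x hsw).fderiv]
    simp
  simp_rw [h1] at h
  have hmp : MeasurePreserving (Prod.swap : ℝ × ℝ → ℝ × ℝ) volume volume :=
    Measure.measurePreserving_swap
  have h2 := hmp.setIntegral_preimage_emb (MeasurableEquiv.prodComm (α := ℝ) (β := ℝ)).measurableEmbedding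
    (fun x => fderiv ℝ g x (1, 0)) tset
  rw [swap_tset] at h2
  rw [← h2]
  exact h

lemma perimeter_tset {K : Set (ℝ × ℝ)} (hK : ∀ x ∈ closure K, |x.1| ≤ 1 ∧ |x.2| ≤ 1) :
    perimeter K tset ≤ ENNReal.ofReal (8 * cs) := by
  unfold perimeter
  refine iSup_le ?_
  rintro ⟨T, hT, hs, hb1⟩
  simp only
  apply ENNReal.ofReal_le_ofReal
  unfold divergence
  have e1 : ContDiff ℝ 1 fun x => (T x).1 := contDiff_fst.comp hT
  have e2 : ContDiff ℝ 1 fun x => (T x).2 := contDiff_snd.comp hT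
  have s1 : HasCompactSupport fun x => (T x).1 := hs.comp_left (g := Prod.fst) rfl
  have s2 : HasCompactSupport fun x => (T x).2 := hs.comp_left (g := Prod.snd) rfl
  have f1 : ∀ x v, fderiv ℝ (fun x => (T x).1) x v = (fderiv ℝ T x v).1 := by
    intro x v
    have := ((ContinuousLinearMap.fst ℝ ℝ ℝ).hasFDerivAt.comp x
      (hT.differentiable one_ne_zero x).hasFDerivAt).fderiv
    have h3 : fderiv ℝ (fun x => (T x).1) x =
      (ContinuousLinearMap.fst ℝ ℝ ℝ).comp (fderiv ℝ T x) := this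
    rw [h3]; rfl
  have f2 : ∀ x v, fderiv ℝ (fun x => (T x).2) x v = (fderiv ℝ T x v).2 := by
    intro x v
    have := ((ContinuousLinearMap.snd ℝ ℝ ℝ).hasFDerivAt.comp x
      (hT.differentiable one_ne_zero x).hasFDerivAt).fderiv
    have h3 : fderiv ℝ (fun x => (T x).2) x =
      (ContinuousLinearMap.snd ℝ ℝ ℝ).comp (fderiv ℝ T x) := this
    rw [h3]; rfl
  simp_rw [← f1, ← f2]
  have i1 : Integrable fun x => fderiv ℝ (fun x => (T x).1) x (1, 0) :=
    ((e1.continuous_fderiv one_ne_zero).clm_apply continuous_const).integrable_of_hasCompactSupport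
      (s1.fderiv_apply ℝ (1, 0))
  have i2 : Integrable fun x => fderiv ℝ (fun x => (T x).2) x (0, 1) :=
    ((e2.continuous_fderiv one_ne_zero).clm_apply continuous_const).integrable_of_hasCompactSupport
      (s2.fderiv_apply ℝ (0, 1))
  rw [integral_add i1.integrableOn i2.integrableOn]
  have j1 := integral_tset_fst e1 s1 (fun x => (hK _ (hb1 x)).1)
  have j2 := integral_tset_snd e2 s2 (fun x => (hK _ (hb1 x)).2)
  linarith

/-! ### The area of the test set -/

lemma tset_eq : tset = regionBetween (fun x => -(hb x)) hb (Ioo (-cs) cs) := by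
  ext ⟨x, y⟩
  rw [mem_tset]
  simp only [regionBetween, mem_ofPred_eq, mem_Ioo, abs_lt]

lemma continuous_hb : Continuous hb := by
  unfold hb
  fun_prop

lemma hb_nonneg (x : ℝ) : 0 ≤ hb x := le_min cs_pos.le (Real.sqrt_nonneg _)

lemma hasDerivAt_F {x : ℝ} (h0 : -1 < x) (h1 : x < 1) :
    HasDerivAt (fun x => (x * Real.sqrt (1 - x ^ 2) + Real.arcsin x) / 2) (Real.sqrt (1 - x ^ 2)) x := by
  have hpos : 0 < 1 - x ^ 2 := by nlinarith
  have hs : Real.sqrt (1 - x ^ 2) ≠ 0 := (Real.sqrt_pos.2 hpos).ne'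
  have h2 : HasDerivAt (fun x : ℝ => 1 - x ^ 2) (-(2 * x)) x := by
    have := ((hasDerivAt_id x).pow 2).const_sub 1
    simpa using this
  have h3 := h2.sqrt hpos.ne'
  have h4 := (((hasDerivAt_id x).mul h3).add (Real.hasDerivAt_arcsin h0.ne' h1.ne)).div_const 2
  refine h4.congr_deriv ?_
  simp only [id]
  have h5 : Real.sqrt (1 - x ^ 2) * Real.sqrt (1 - x ^ 2) = 1 - x ^ 2 := Real.mul_self_sqrt hpos.le
  field_simp
  nlinarith

lemma integral_arc :
    ∫ x in Real.sin (Real.pi / 8)..Real.cos (Real.pi / 8), Real.sqrt (1 - x ^ 2) = Real.pi / 8 := by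
  have hpi := Real.pi_pos
  have hcos : Real.cos (Real.pi / 8) = Real.sin (3 * Real.pi / 8) := by
    rw [← Real.sin_pi_div_two_sub]; congr 1; ring
  have hsin0 : 0 < Real.sin (Real.pi / 8) := Real.sin_pos_of_pos_of_lt_pi (by linarith) (by linarith)
  have hcos1 : Real.cos (Real.pi / 8) < 1 := cs_lt_one
  have hcos0 : 0 < Real.cos (Real.pi / 8) := cs_pos
  have hsin1 : Real.sin (Real.pi / 8) < 1 := by
    nlinarith [Real.sin_sq_add_cos_sq (Real.pi / 8)]
  rw [intervalIntegral.integral_eq_sub_of_hasDerivAt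
    (f := fun x => (x * Real.sqrt (1 - x ^ 2) + Real.arcsin x) / 2)]
  · have e1 : Real.sqrt (1 - Real.cos (Real.pi / 8) ^ 2) = Real.sin (Real.pi / 8) := by
      rw [← Real.sin_sq, Real.sqrt_sq hsin0.le]
    have e2 : Real.sqrt (1 - Real.sin (Real.pi / 8) ^ 2) = Real.cos (Real.pi / 8) := by
      rw [← Real.cos_sq', Real.sqrt_sq hcos0.le]
    have e3 : Real.arcsin (Real.cos (Real.pi / 8)) = 3 * Real.pi / 8 := by
      rw [hcos, Real.arcsin_sin (by linarith) (by linarith)]
    have e4 : Real.arcsin (Real.sin (Real.pi / 8)) = Real.pi / 8 :=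
      Real.arcsin_sin (by linarith) (by linarith)
    simp only [e1, e2, e3, e4]
    ring
  · intro x hx
    have hx1 := (mem_uIcc.1 hx)
    apply hasDerivAt_F
    · rcases hx1 with h | h <;> linarith [h.1]
    · rcases hx1 with h | h <;> linarith [h.2]
  · exact (by fun_prop : Continuous fun x : ℝ => Real.sqrt (1 - x ^ 2)).intervalIntegrable _ _

lemma integral_hb : Real.pi / 4 + Real.sqrt 2 / 2 ≤ ∫ x in (-cs)..cs, hb x := by
  have hpi := Real.pi_pos
  set t := Real.sin (Real.pi / 8) with ht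
  have ht0 : 0 < t := Real.sin_pos_of_pos_of_lt_pi (by linarith) (by linarith)
  have hcs0 := cs_pos
  have hcsdef : cs = Real.cos (Real.pi / 8) := rfl
  have hsc : t ^ 2 + cs ^ 2 = 1 := Real.sin_sq_add_cos_sq (Real.pi / 8)
  have htc : t < cs := by
    rw [hcsdef, ht, ← Real.cos_pi_div_two_sub]
    apply Real.cos_lt_cos_of_nonneg_of_le_pi <;> linarith
  have hii : ∀ a b : ℝ, IntervalIntegrable hb volume a b := fun a b =>
    continuous_hb.intervalIntegrable _ _
  rw [← intervalIntegral.integral_add_adjacent_intervals (hii (-cs) (-t)) (hii (-t) cs),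
    ← intervalIntegral.integral_add_adjacent_intervals (hii (-t) t) (hii t cs)]
  have hmid : ∫ x in (-t)..t, hb x = 2 * t * cs := by
    have : ∫ x in (-t)..t, hb x = ∫ x in (-t)..t, cs := by
      apply intervalIntegral.integral_congr
      intro x hx
      rw [uIcc_of_le (by linarith)] at hx
      simp only [hb]
      apply min_eq_left
      apply Real.le_sqrt_of_sq_le
      have : x ^ 2 ≤ t ^ 2 := by
        rw [sq_le_sq, abs_of_pos ht0]; exact abs_le.2 hx
      linarith
    rw [this, intervalIntegral.integral_const, smul_eq_mul]; ring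
  have hright : ∫ x in t..cs, hb x = Real.pi / 8 := by
    rw [← integral_arc]
    apply intervalIntegral.integral_congr
    intro x hx
    rw [uIcc_of_le htc.le] at hx
    simp only [hb]
    apply min_eq_right
    rw [Real.sqrt_le_left hcs0.le]
    have : t ^ 2 ≤ x ^ 2 := by nlinarith [hx.1]
    linarith
  have hleft : ∫ x in (-cs)..(-t), hb x = Real.pi / 8 := by
    rw [← hright, ← intervalIntegral.integral_comp_neg]
    congr 1
    ext x
    simp [hb]
  have h2tc : 2 * t * cs = Real.sqrt 2 / 2 := by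
    rw [← Real.sin_pi_div_four, show Real.pi / 4 = 2 * (Real.pi / 8) by ring, Real.sin_two_mul, ht,
      hcsdef]
  rw [hmid, hright, hleft, h2tc]
  linarith

lemma volume_tset : ENNReal.ofReal (Real.pi / 2 + Real.sqrt 2) ≤ volume tset := by
  rw [tset_eq, Measure.volume_eq_prod, volume_regionBetween_eq_integral]
  · apply ENNReal.ofReal_le_ofReal
    have h := integral_hb
    have hcs0 := cs_pos
    have h1 : ∫ y in Ioo (-cs) cs, (hb - fun x => -(hb x)) y = 2 * ∫ x in (-cs)..cs, hb x := by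
      rw [← integral_Ioc_eq_integral_Ioo, ← intervalIntegral.integral_of_le (by linarith),
        ← intervalIntegral.integral_const_mul]
      congr 1
      ext x
      simp only [Pi.sub_apply]
      ring
    rw [h1]
    linarith
  · exact (continuous_hb.neg.integrableOn_Icc (a := -cs) (b := cs)).mono_set Ioo_subset_Icc_self
  · exact (continuous_hb.integrableOn_Icc (a := -cs) (b := cs)).mono_set Ioo_subset_Icc_self
  · exact measurableSet_Ioo
  · intro x _
    have := hb_nonneg x
    linarith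

lemma cheeger_le {K : Set (ℝ × ℝ)} (hK : ∀ x ∈ closure K, |x.1| ≤ 1 ∧ |x.2| ≤ 1) :
    cheeger K disk ≤ ENNReal.ofReal (8 * cs / (Real.pi / 2 + Real.sqrt 2)) := by
  have hpos : 0 < Real.pi / 2 + Real.sqrt 2 := by
    have := Real.pi_pos
    positivity
  have hv : 0 < volume tset :=
    lt_of_lt_of_le (ENNReal.ofReal_pos.2 hpos) volume_tset
  unfold cheeger
  refine le_trans (iInf_le _ ⟨tset, isOpen_tset.measurableSet, tset_subset, hv⟩) ?_
  simp only
  rw [ENNReal.ofReal_div_of_pos hpos]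
  exact ENNReal.div_le_div (perimeter_tset hK) volume_tset

/-! ### The polygon -/

/-- half of the side of the inner square -/
noncomputable def cc : ℝ := 999 / 1000

/-- the bulge -/
noncomputable def dd : ℝ := 1000 / 998001

/-- the extra vertices -/
noncomputable def pt (n k : ℕ) : ℝ × ℝ := (1 - dd * ((k + 1 : ℝ) / n) ^ 2, (k + 1 : ℝ) / n)

/-- the four corners -/
noncomputable def corners : Finset (ℝ × ℝ) := {cc, -cc} ×ˢ {cc, -cc}

/-- the vertices of the polygon -/
noncomputable def verts (m : ℕ) : Finset (ℝ × ℝ) :=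
  corners ∪ ((Finset.range (m - 2)).image (pt (2 * m)) ∪
    (Finset.range (m - 2)).image (fun k => -pt (2 * m) k))

lemma ybound {m k : ℕ} (hk : k < m - 2) : 0 < ((k + 1 : ℝ) / ((2 * m : ℕ) : ℝ)) ∧
    ((k + 1 : ℝ) / ((2 * m : ℕ) : ℝ)) ≤ 1 / 2 := by
  have hm : 0 < m := by omega
  have hm' : (0 : ℝ) < ((2 * m : ℕ) : ℝ) := by exact_mod_cast (by omega : 0 < 2 * m)
  constructor
  · positivity
  · rw [div_le_iff₀ hm']
    have : (k + 1 : ℝ) ≤ m := by exact_mod_cast (by omega : k + 1 ≤ m)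
    push_cast
    linarith

lemma pt_snd (n k : ℕ) : (pt n k).2 = (k + 1 : ℝ) / n := rfl

lemma pt_fst (n k : ℕ) : (pt n k).1 = 1 - dd * (pt n k).2 ^ 2 := rfl

lemma mem_verts {m : ℕ} {w : ℝ × ℝ} : w ∈ verts m ↔
    ((w.1 = cc ∨ w.1 = -cc) ∧ (w.2 = cc ∨ w.2 = -cc)) ∨
      (∃ k < m - 2, pt (2 * m) k = w) ∨ ∃ k < m - 2, -pt (2 * m) k = w := by
  simp [verts, corners, Finset.mem_product]

lemma pt_inj {m : ℕ} (hm : 0 < m) : Function.Injective (pt (2 * m)) := by
  intro j k h
  have h2 : (pt (2 * m) j).2 = (pt (2 * m) k).2 := by rw [h]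
  rw [pt_snd, pt_snd] at h2
  have hm' : ((2 * m : ℕ) : ℝ) ≠ 0 := by exact_mod_cast (by omega : 2 * m ≠ 0)
  field_simp at h2
  have : (j : ℝ) = k := by linarith
  exact_mod_cast this

lemma pt_bounds {m k : ℕ} (hk : k < m - 2) : cc < (pt (2 * m) k).1 ∧ (pt (2 * m) k).1 ≤ 1 ∧
    0 < (pt (2 * m) k).2 ∧ (pt (2 * m) k).2 ≤ 1 / 2 := by
  obtain ⟨h1, h2⟩ := ybound hk
  rw [pt_fst]
  have h3 : (pt (2 * m) k).2 = (k + 1 : ℝ) / ((2 * m : ℕ) : ℝ) := rfl
  rw [← h3] at h1 h2
  refine ⟨?_, ?_, h1, h2⟩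
  · unfold cc dd
    nlinarith
  · unfold dd
    nlinarith [sq_nonneg (pt (2 * m) k).2]

lemma card_verts {m : ℕ} (hm : 2 ≤ m) : (verts m).card = 2 * m := by
  have hcc : (cc : ℝ) ≠ -cc := by unfold cc; norm_num
  have h1 : corners.card = 4 := by
    unfold corners
    rw [Finset.card_product, Finset.card_pair hcc]
  have h2 : ((Finset.range (m - 2)).image (pt (2 * m))).card = m - 2 := by
    rw [Finset.card_image_of_injective _ (pt_inj (by omega)), Finset.card_range]
  have h3 : ((Finset.range (m - 2)).image (fun k => -pt (2 * m) k)).card = m - 2 := by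
    rw [Finset.card_image_of_injective (f := fun k => -pt (2 * m) k) _
      (fun a b h => pt_inj (m := m) (by omega) (neg_injective h)), Finset.card_range]
  unfold verts
  rw [Finset.card_union_of_disjoint, Finset.card_union_of_disjoint, h1, h2, h3]
  · omega
  · rw [Finset.disjoint_left]
    intro w hw hw2
    simp only [Finset.mem_image, Finset.mem_range] at hw hw2
    obtain ⟨k, hk, rfl⟩ := hw
    obtain ⟨j, hj, hjk⟩ := hw2
    have e1 := (pt_bounds hk).2.2.1
    have e2 := (pt_bounds hj).2.2.1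
    have e3 : (-pt (2 * m) j).2 = (pt (2 * m) k).2 := by rw [hjk]
    simp only [Prod.snd_neg] at e3
    linarith
  · rw [Finset.disjoint_left]
    intro w hw hw2
    simp only [corners, Finset.mem_product, Finset.mem_insert, Finset.mem_singleton] at hw
    simp only [Finset.mem_union, Finset.mem_image, Finset.mem_range] at hw2
    have hc0 : (0 : ℝ) < cc := by unfold cc; norm_num
    rcases hw2 with ⟨k, hk, rfl⟩ | ⟨k, hk, rfl⟩
    · have e1 := (pt_bounds hk).1
      rcases hw.1 with h | h <;> linarith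
    · have e1 := (pt_bounds hk).1
      simp only [Prod.fst_neg] at hw
      rcases hw.1 with h | h <;> linarith

lemma exposed {V : Set (ℝ × ℝ)} {v : ℝ × ℝ} (a b : ℝ)
    (h : ∀ w ∈ V, w ≠ v → a * w.1 + b * w.2 < a * v.1 + b * v.2) :
    v ∉ convexHull ℝ (V \ {v}) := by
  intro hv
  have hconv : Convex ℝ {w : ℝ × ℝ | a * w.1 + b * w.2 < a * v.1 + b * v.2} := by
    intro x hx y hy s t hs ht hst
    simp only [mem_ofPred_eq, Prod.fst_add, Prod.snd_add, Prod.smul_fst, Prod.smul_snd,
      smul_eq_mul] at hx hy ⊢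
    have h1 : a * (s * x.1 + t * y.1) + b * (s * x.2 + t * y.2) =
      s * (a * x.1 + b * x.2) + t * (a * y.1 + b * y.2) := by ring
    rw [h1]
    rcases hs.eq_or_lt with hs0 | hs0
    · have ht1 : t = 1 := by linarith
      rw [← hs0, ht1]; linarith
    · calc s * (a * x.1 + b * x.2) + t * (a * y.1 + b * y.2)
          < s * (a * v.1 + b * v.2) + t * (a * v.1 + b * v.2) := by
            have e1 := mul_lt_mul_of_pos_left hx hs0
            have e2 := mul_le_mul_of_nonneg_left hy.le ht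
            linarith
        _ = a * v.1 + b * v.2 := by rw [← add_mul, hst, one_mul]
  have h2 : a * v.1 + b * v.2 < a * v.1 + b * v.2 :=
    convexHull_min (s := V \ {v}) (fun w hw => h w hw.1 hw.2) hconv hv
  exact lt_irrefl _ h2

lemma verts_neg {m : ℕ} {w : ℝ × ℝ} (hw : w ∈ verts m) : -w ∈ verts m := by
  rw [mem_verts] at hw ⊢
  rcases hw with ⟨h1, h2⟩ | ⟨k, hk, h⟩ | ⟨k, hk, h⟩
  · left
    simp only [Prod.fst_neg, Prod.snd_neg]
    constructor
    · rcases h1 with h | h
      · right; rw [h]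
      · left; rw [h, neg_neg]
    · rcases h2 with h | h
      · right; rw [h]
      · left; rw [h, neg_neg]
  · right; right; exact ⟨k, hk, by rw [h]⟩
  · right; left; exact ⟨k, hk, by rw [← h, neg_neg]⟩

lemma exposed_pt {m k : ℕ} (hk : k < m - 2) {w : ℝ × ℝ} (hw : w ∈ verts m)
    (hne : w ≠ pt (2 * m) k) :
    1 * w.1 + (2 * dd * (pt (2 * m) k).2) * w.2 <
      1 * (pt (2 * m) k).1 + (2 * dd * (pt (2 * m) k).2) * (pt (2 * m) k).2 := by
  obtain ⟨a1, a2, a3, a4⟩ := pt_bounds hk
  rw [pt_fst]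
  set y := (pt (2 * m) k).2 with hy
  have hd : 0 < dd := by unfold dd; norm_num
  have hcd : cc = 1 - dd * cc ^ 2 := by unfold cc dd; norm_num
  have hc0 : (0 : ℝ) < cc := by unfold cc; norm_num
  have hyc : y < cc := by unfold cc; linarith
  rw [mem_verts] at hw
  rcases hw with ⟨h1, h2⟩ | ⟨j, hj, h⟩ | ⟨j, hj, h⟩
  · have e1 : w.1 ≤ cc := by rcases h1 with h | h <;> linarith
    have e2 : w.2 ≤ cc := by rcases h2 with h | h <;> linarith
    have e3 : 2 * dd * y * w.2 ≤ 2 * dd * y * cc :=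
      mul_le_mul_of_nonneg_left e2 (by positivity)
    have e4 : 0 < dd * (cc - y) ^ 2 := by
      have : 0 < cc - y := by linarith
      positivity
    nlinarith
  · obtain ⟨b1, b2, b3, b4⟩ := pt_bounds hj
    rw [← h, pt_fst]
    have hjk : (pt (2 * m) j).2 ≠ y := by
      intro he
      apply hne
      rw [← h]
      ext
      · rw [pt_fst, pt_fst, he, hy]
      · exact he
    have e4 : 0 < dd * ((pt (2 * m) j).2 - y) ^ 2 := by
      have : 0 < ((pt (2 * m) j).2 - y) ^ 2 := by
        have := sub_ne_zero.2 hjk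
        positivity
      positivity
    nlinarith
  · obtain ⟨b1, b2, b3, b4⟩ := pt_bounds hj
    have e1 : w.1 < 0 := by rw [← h]; simp only [Prod.fst_neg]; linarith
    have e2 : w.2 < 0 := by rw [← h]; simp only [Prod.snd_neg]; linarith
    have e3 : 2 * dd * y * w.2 < 0 := mul_neg_of_pos_of_neg (by positivity) e2
    have e4 : dd * y ^ 2 ≤ 1 := by
      unfold dd
      nlinarith
    nlinarith

lemma indep_verts {m : ℕ} : ∀ v ∈ verts m, v ∉ convexHull ℝ ((verts m : Set (ℝ × ℝ)) \ {v}) := by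
  intro v hv
  have hc0 : (0 : ℝ) < cc := by unfold cc; norm_num
  have hv' := hv
  rw [mem_verts] at hv
  rcases hv with ⟨h1, h2⟩ | ⟨k, hk, h⟩ | ⟨k, hk, h⟩
  · -- corners: the functional `v.1 x + v.2 y`
    apply exposed v.1 v.2
    intro w hw hne
    have hv1 : |v.1| = cc := by rcases h1 with h | h <;> rw [h] <;> simp [abs_of_pos hc0]
    have hv2 : |v.2| = cc := by rcases h2 with h | h <;> rw [h] <;> simp [abs_of_pos hc0]
    have hr : v.1 * v.1 + v.2 * v.2 = 2 * cc * cc := by
      rw [← abs_mul_abs_self v.1, ← abs_mul_abs_self v.2, hv1, hv2]; ring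
    rw [hr]
    have hw' : w ∈ verts m := hw
    rw [mem_verts] at hw'
    have hgen : ∀ j < m - 2, |v.1 * (pt (2 * m) j).1 + v.2 * (pt (2 * m) j).2| < 2 * cc * cc := by
      intro j hj
      obtain ⟨b1, b2, b3, b4⟩ := pt_bounds hj
      have e1 : |v.1 * (pt (2 * m) j).1| ≤ cc * 1 := by
        rw [abs_mul, hv1, abs_of_pos (by linarith)]
        exact mul_le_mul_of_nonneg_left b2 hc0.le
      have e2 : |v.2 * (pt (2 * m) j).2| ≤ cc * (1 / 2) := by
        rw [abs_mul, hv2, abs_of_pos b3]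
        exact mul_le_mul_of_nonneg_left b4 hc0.le
      have e3 := abs_add_le (v.1 * (pt (2 * m) j).1) (v.2 * (pt (2 * m) j).2)
      have e4 : cc * 1 + cc * (1 / 2) < 2 * cc * cc := by unfold cc; norm_num
      linarith
    rcases hw' with ⟨g1, g2⟩ | ⟨j, hj, h⟩ | ⟨j, hj, h⟩
    · -- two corners
      have hcase : w.1 ≠ v.1 ∨ w.2 ≠ v.2 := by
        by_contra hcon
        push Not at hcon
        exact hne (Prod.ext hcon.1 hcon.2)
      rcases h1 with h1 | h1 <;> rcases h2 with h2 | h2 <;> rcases g1 with g1 | g1 <;>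
        rcases g2 with g2 | g2 <;> rw [h1, h2, g1, g2] at hcase ⊢ <;>
        first
          | (exfalso; simp at hcase; done)
          | (nlinarith [mul_pos hc0 hc0])
    · rw [← h]
      exact lt_of_le_of_lt (le_abs_self _) (hgen j hj)
    · rw [← h]
      have := hgen j hj
      have e := neg_abs_le (v.1 * (pt (2 * m) j).1 + v.2 * (pt (2 * m) j).2)
      simp only [Prod.fst_neg, Prod.snd_neg]
      linarith
  · rw [← h]
    exact exposed _ _ (fun w hw hne => exposed_pt hk hw hne)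
  · rw [← h]
    apply exposed (-1) (-(2 * dd * (pt (2 * m) k).2))
    intro w hw hne
    have := exposed_pt hk (verts_neg hw) (fun he => hne (by rw [← he, neg_neg]))
    simp only [Prod.fst_neg, Prod.snd_neg] at this ⊢
    linarith

/-- the polygon -/
noncomputable def poly (m : ℕ) : Set (ℝ × ℝ) := interior (convexHull ℝ (verts m : Set (ℝ × ℝ)))

lemma hull_subset_box (m : ℕ) : convexHull ℝ (verts m : Set (ℝ × ℝ)) ⊆ Icc (-1) 1 ×ˢ Icc (-1) 1 := by
  apply convexHull_min _ ((convex_Icc _ _).prod (convex_Icc _ _))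
  intro w hw
  have hw' : w ∈ verts m := hw
  rw [mem_verts] at hw'
  have hc0 : (0 : ℝ) < cc := by unfold cc; norm_num
  have hc1 : cc < (1 : ℝ) := by unfold cc; norm_num
  simp only [mem_prod, mem_Icc]
  rcases hw' with ⟨h1, h2⟩ | ⟨j, hj, h⟩ | ⟨j, hj, h⟩
  · refine ⟨⟨?_, ?_⟩, ⟨?_, ?_⟩⟩
    · rcases h1 with h | h <;> linarith
    · rcases h1 with h | h <;> linarith
    · rcases h2 with h | h <;> linarith
    · rcases h2 with h | h <;> linarith
  · obtain ⟨b1, b2, b3, b4⟩ := pt_bounds hj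
    rw [← h]
    refine ⟨⟨?_, ?_⟩, ⟨?_, ?_⟩⟩ <;> linarith
  · obtain ⟨b1, b2, b3, b4⟩ := pt_bounds hj
    rw [← h]
    simp only [Prod.fst_neg, Prod.snd_neg]
    refine ⟨⟨?_, ?_⟩, ⟨?_, ?_⟩⟩ <;> linarith

lemma square_subset_hull (m : ℕ) :
    Icc (-cc) cc ×ˢ Icc (-cc) cc ⊆ convexHull ℝ (verts m : Set (ℝ × ℝ)) := by
  have hc0 : (0 : ℝ) < cc := by unfold cc; norm_num
  have h1 : (({-cc, cc} : Set ℝ) ×ˢ ({-cc, cc} : Set ℝ)) ⊆ (verts m : Set (ℝ × ℝ)) := by
    rintro ⟨x, y⟩ ⟨hx, hy⟩
    simp only [mem_insert_iff, mem_singleton_iff] at hx hy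
    show (x, y) ∈ verts m
    rw [mem_verts]
    left
    exact ⟨hx.symm, hy.symm⟩
  have h2 := convexHull_mono (𝕜 := ℝ) h1
  rw [convexHull_prod, convexHull_pair, segment_eq_Icc (by linarith)] at h2
  exact h2

lemma smallsquare_subset (m : ℕ) : Ioo (-cc) cc ×ˢ Ioo (-cc) cc ⊆ poly m := by
  unfold poly
  apply interior_maximal _ (isOpen_Ioo.prod isOpen_Ioo)
  exact (prod_mono Ioo_subset_Icc_self Ioo_subset_Icc_self).trans (square_subset_hull m)

lemma poly_isBody (m : ℕ) : IsBody (poly m) where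
  nonempty := ⟨0, smallsquare_subset m (by
    have hc0 : (0 : ℝ) < cc := by unfold cc; norm_num
    simp [hc0])⟩
  isOpen := isOpen_interior
  bounded := ((Metric.isBounded_Icc (-1 : ℝ) 1).prod (Metric.isBounded_Icc (-1 : ℝ) 1)).subset
    (interior_subset.trans (hull_subset_box m))
  convex := (convex_convexHull ℝ _).interior
  neg_mem := by
    intro x hx
    have hneg : -(verts m : Set (ℝ × ℝ)) = verts m := by
      ext w
      constructor
      · intro h
        have := verts_neg (m := m) (w := -w) h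
        rwa [neg_neg] at this
      · intro h
        exact verts_neg (m := m) h
    have h1 : -(convexHull ℝ (verts m : Set (ℝ × ℝ))) = convexHull ℝ (verts m : Set (ℝ × ℝ)) := by
      rw [← convexHull_neg, hneg]
    have h2 : -(poly m) = poly m := by
      unfold poly
      have h3 : -interior (convexHull ℝ (verts m : Set (ℝ × ℝ))) =
          interior (-convexHull ℝ (verts m : Set (ℝ × ℝ))) :=
        (Homeomorph.neg (ℝ × ℝ)).preimage_interior _
      rw [h3, h1]
    have : - -x ∈ poly m := by rwa [neg_neg]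
    rw [← h2]
    exact this

lemma poly_closure (m : ℕ) : ∀ x ∈ closure (poly m), |x.1| ≤ 1 ∧ |x.2| ≤ 1 := by
  intro x hx
  have h1 : closure (poly m) ⊆ Icc (-1) 1 ×ˢ Icc (-1) 1 :=
    closure_minimal (interior_subset.trans (hull_subset_box m)) (isClosed_Icc.prod isClosed_Icc)
  have h2 := h1 hx
  simp only [mem_prod, mem_Icc] at h2
  exact ⟨abs_le.2 h2.1, abs_le.2 h2.2⟩

lemma polar_poly (m : ℕ) : polarSet (poly m) ⊆ {x | |x.1| + |x.2| < 1 / cc} := by
  intro x hx
  have hc0 : (0 : ℝ) < cc := by unfold cc; norm_num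
  have hx' : polarNorm (poly m) x < 1 := hx
  simp only [mem_ofPred_eq]
  rw [lt_div_iff₀ hc0]
  have hbdd : BddAbove ((fun y => dot x y) '' poly m) := by
    refine ⟨|x.1| + |x.2|, ?_⟩
    rintro _ ⟨y, hy, rfl⟩
    obtain ⟨h1, h2⟩ := poly_closure m y (subset_closure hy)
    have e1 : x.1 * y.1 ≤ |x.1| := by
      calc x.1 * y.1 ≤ |x.1 * y.1| := le_abs_self _
        _ = |x.1| * |y.1| := abs_mul _ _
        _ ≤ |x.1| * 1 := mul_le_mul_of_nonneg_left h1 (abs_nonneg _)
        _ = |x.1| := mul_one _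
    have e2 : x.2 * y.2 ≤ |x.2| := by
      calc x.2 * y.2 ≤ |x.2 * y.2| := le_abs_self _
        _ = |x.2| * |y.2| := abs_mul _ _
        _ ≤ |x.2| * 1 := mul_le_mul_of_nonneg_left h2 (abs_nonneg _)
        _ = |x.2| := mul_one _
    simp only [dot]
    linarith
  have key : ∀ t : ℝ, 0 < t → t < cc → (|x.1| + |x.2|) * t ≤ polarNorm (poly m) x := by
    intro t ht0 ht1
    obtain ⟨s1, hs1, hs1'⟩ : ∃ s : ℝ, |s| = 1 ∧ x.1 * s = |x.1| := by
      rcases le_total 0 x.1 with h | h
      · exact ⟨1, by simp, by rw [abs_of_nonneg h, mul_one]⟩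
      · exact ⟨-1, by simp, by rw [abs_of_nonpos h]; ring⟩
    obtain ⟨s2, hs2, hs2'⟩ : ∃ s : ℝ, |s| = 1 ∧ x.2 * s = |x.2| := by
      rcases le_total 0 x.2 with h | h
      · exact ⟨1, by simp, by rw [abs_of_nonneg h, mul_one]⟩
      · exact ⟨-1, by simp, by rw [abs_of_nonpos h]; ring⟩
    have hmem : (s1 * t, s2 * t) ∈ poly m := by
      apply smallsquare_subset m
      refine ⟨?_, ?_⟩
      · show s1 * t ∈ Ioo (-cc) cc
        rw [mem_Ioo, ← abs_lt, abs_mul, hs1, abs_of_pos ht0, one_mul]; exact ht1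
      · show s2 * t ∈ Ioo (-cc) cc
        rw [mem_Ioo, ← abs_lt, abs_mul, hs2, abs_of_pos ht0, one_mul]; exact ht1
    have h := le_csSup hbdd ⟨_, hmem, rfl⟩
    have e : dot x (s1 * t, s2 * t) = (|x.1| + |x.2|) * t := by
      simp only [dot]; rw [← hs1', ← hs2']; ring
    simp only at h
    rw [e] at h
    exact h
  have h1 : (|x.1| + |x.2|) * cc ≤ polarNorm (poly m) x := by
    have ht : Filter.Tendsto (fun t : ℝ => (|x.1| + |x.2|) * t) (nhdsWithin cc (Iio cc))
        (nhds ((|x.1| + |x.2|) * cc)) :=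
      ((continuous_const.mul continuous_id).tendsto cc).mono_left nhdsWithin_le_nhds
    refine le_of_tendsto ht ?_
    filter_upwards [Ioo_mem_nhdsLT hc0] with t ht
    exact key t ht.1 ht.2
  linarith

lemma volume_l1 {r : ℝ} (hr : 0 < r) :
    volume {x : ℝ × ℝ | |x.1| + |x.2| < r} = ENNReal.ofReal (2 * r ^ 2) := by
  have h1 : {x : ℝ × ℝ | |x.1| + |x.2| < r} =
      regionBetween (fun x => -(r - |x|)) (fun x => r - |x|) (Ioo (-r) r) := by
    ext ⟨x, y⟩
    simp only [regionBetween, mem_ofPred_eq]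
    constructor
    · intro h
      have h2 := abs_nonneg y
      refine ⟨abs_lt.1 (by linarith), abs_lt.1 (by linarith)⟩
    · rintro ⟨h1, h2⟩
      have := abs_lt.2 h2
      linarith
  have hc1 : Continuous fun x : ℝ => -(r - |x|) := by fun_prop
  have hc2 : Continuous fun x : ℝ => r - |x| := by fun_prop
  rw [h1, Measure.volume_eq_prod, volume_regionBetween_eq_integral]
  · congr 1
    rw [← integral_Ioc_eq_integral_Ioo, ← intervalIntegral.integral_of_le (by linarith)]
    have hii : ∀ a b : ℝ, IntervalIntegrable ((fun x : ℝ => r - |x|) - fun x => -(r - |x|))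
        volume a b := fun a b => (hc2.sub hc1).intervalIntegrable _ _
    rw [← intervalIntegral.integral_add_adjacent_intervals (hii (-r) 0) (hii 0 r)]
    have e1 : ∫ x in (-r)..0, ((fun x : ℝ => r - |x|) - fun x => -(r - |x|)) x =
        ∫ x in (-r)..0, (2 * r + 2 * x) := by
      apply intervalIntegral.integral_congr
      intro x hx
      rw [uIcc_of_le (by linarith)] at hx
      simp only [Pi.sub_apply]
      rw [abs_of_nonpos hx.2]; ring
    have e2 : ∫ x in (0 : ℝ)..r, ((fun x : ℝ => r - |x|) - fun x => -(r - |x|)) x =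
        ∫ x in (0 : ℝ)..r, (2 * r - 2 * x) := by
      apply intervalIntegral.integral_congr
      intro x hx
      rw [uIcc_of_le (by linarith)] at hx
      simp only [Pi.sub_apply]
      rw [abs_of_nonneg hx.1]; ring
    rw [e1, e2, intervalIntegral.integral_add, intervalIntegral.integral_sub]
    · have e3 : ∫ x in (-r)..0, 2 * x = -(r ^ 2) := by
        rw [intervalIntegral.integral_const_mul, integral_id]; ring
      have e4 : ∫ x in (0 : ℝ)..r, 2 * x = r ^ 2 := by
        rw [intervalIntegral.integral_const_mul, integral_id]; ring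
      rw [e3, e4, intervalIntegral.integral_const, intervalIntegral.integral_const, smul_eq_mul,
        smul_eq_mul]
      ring
    · exact continuous_const.intervalIntegrable _ _
    · exact (by fun_prop : Continuous fun x : ℝ => 2 * x).intervalIntegrable _ _
    · exact continuous_const.intervalIntegrable _ _
    · exact (by fun_prop : Continuous fun x : ℝ => 2 * x).intervalIntegrable _ _
  · exact (hc1.integrableOn_Icc (a := -r) (b := r)).mono_set Ioo_subset_Icc_self
  · exact (hc2.integrableOn_Icc (a := -r) (b := r)).mono_set Ioo_subset_Icc_self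
  · exact measurableSet_Ioo
  · intro x hx
    have := abs_lt.2 hx
    linarith

/-- the final numerical comparison -/
lemma numeric {n : ℕ} (hn : 24 ≤ n) :
    (8 * cs / (Real.pi / 2 + Real.sqrt 2)) ^ 2 * (2 * (1 / cc) ^ 2) <
      4 * (Real.pi * Real.cos (Real.pi / n) ^ 2) := by
  have hp1 := Real.pi_gt_d4
  have hp2 := Real.pi_lt_d4
  have hs1 : (1.4142 : ℝ) < Real.sqrt 2 := by
    apply Real.lt_sqrt_of_sq_lt; norm_num
  have hs2 : Real.sqrt 2 < (1.4143 : ℝ) := by
    rw [Real.sqrt_lt' (by norm_num)]; norm_num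
  have hcs : cs ^ 2 = (2 + Real.sqrt 2) / 4 := by
    unfold cs
    rw [Real.cos_pi_div_eight, div_pow, Real.sq_sqrt (by positivity)]
    norm_num
  have hpos : 0 < Real.pi / 2 + Real.sqrt 2 := by positivity
  have hn0 : (24 : ℝ) ≤ n := by exact_mod_cast hn
  have hn1 : Real.pi / n ≤ 0.1309 := by
    rw [div_le_iff₀ (by linarith)]
    nlinarith
  have hcos : 0.9914 ≤ Real.cos (Real.pi / n) := by
    have h := Real.one_sub_sq_div_two_le_cos (x := Real.pi / n)
    have h0 : 0 ≤ Real.pi / n := by positivity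
    nlinarith
  have hrhs : 4 * (Real.pi * Real.cos (Real.pi / n) ^ 2) ≥ 12.34 := by
    have : (0.9914 : ℝ) ^ 2 ≤ Real.cos (Real.pi / n) ^ 2 := by
      apply pow_le_pow_left₀ (by norm_num) hcos
    nlinarith
  have hlhs : (8 * cs / (Real.pi / 2 + Real.sqrt 2)) ^ 2 * (2 * (1 / cc) ^ 2) < 12.34 := by
    have e : (8 * cs / (Real.pi / 2 + Real.sqrt 2)) ^ 2 * (2 * (1 / cc) ^ 2) =
        32 * (2 + Real.sqrt 2) * (1000000 / 998001) / (Real.pi / 2 + Real.sqrt 2) ^ 2 := by
      rw [div_pow, mul_pow, hcs]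
      unfold cc
      field_simp
      ring
    rw [e, div_lt_iff₀ (by positivity)]
    have h3 : (2.98495 : ℝ) ^ 2 ≤ (Real.pi / 2 + Real.sqrt 2) ^ 2 := by
      apply pow_le_pow_left₀ (by norm_num)
      linarith
    nlinarith
  linarith

/-- **For every even `n ≥ 24` the regular `n`-gon does not minimise `𝒥_B` among the centrally
symmetric convex `n`-gons.** -/
theorem result : ∀ n : ℕ, Even n → 24 ≤ n →
    ∃ P : Set (ℝ × ℝ), IsPolygon n P ∧ JJ disk P < JJ disk (regularPolygon n) := by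
  intro n hev hn
  obtain ⟨m, hm⟩ := hev
  have hm2 : n = 2 * m := by omega
  refine ⟨poly m, ⟨poly_isBody m, verts m, ?_, indep_verts, rfl⟩, ?_⟩
  · rw [card_verts (by omega)]; omega
  · refine lt_of_lt_of_le ?_ (lower_regular (by omega))
    have hc0 : (0 : ℝ) < cc := by unfold cc; norm_num
    have hpos : 0 < Real.pi / 2 + Real.sqrt 2 := by
      have := Real.pi_pos
      positivity
    have h1 : JJ disk (poly m) ≤ ENNReal.ofReal (8 * cs / (Real.pi / 2 + Real.sqrt 2)) *
        (ENNReal.ofReal (2 * (1 / cc) ^ 2)) ^ (1 / 2 : ℝ) := by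
      unfold JJ
      refine mul_le_mul' (cheeger_le (poly_closure m)) ?_
      refine ENNReal.rpow_le_rpow ?_ (by norm_num)
      rw [← volume_l1 (by positivity)]
      exact measure_mono (polar_poly m)
    refine lt_of_le_of_lt h1 ?_
    have h2 : (2 : ℝ≥0∞) = ENNReal.ofReal 2 := by norm_num
    have hcpos : 0 < Real.cos (Real.pi / n) := by
      apply Real.cos_pos_of_mem_Ioo
      have hpi := Real.pi_pos
      have hn0 : (24 : ℝ) ≤ n := by exact_mod_cast hn
      constructor
      · have : 0 < Real.pi / n := by positivity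
        linarith
      · rw [div_lt_div_iff₀ (by positivity) (by norm_num)]
        nlinarith
    rw [h2, ENNReal.ofReal_rpow_of_pos (by positivity), ENNReal.ofReal_rpow_of_pos (by
      have := Real.pi_pos
      positivity), ← ENNReal.ofReal_mul (by have := cs_pos; positivity),
      ← ENNReal.ofReal_mul (by norm_num)]
    rw [ENNReal.ofReal_lt_ofReal_iff (by have := Real.pi_pos; positivity)]
    rw [← Real.sqrt_eq_rpow, ← Real.sqrt_eq_rpow]
    have h3 := numeric hn
    have hA : 0 ≤ 8 * cs / (Real.pi / 2 + Real.sqrt 2) := by have := cs_pos; positivity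
    have e1 : 8 * cs / (Real.pi / 2 + Real.sqrt 2) * Real.sqrt (2 * (1 / cc) ^ 2) =
        Real.sqrt ((8 * cs / (Real.pi / 2 + Real.sqrt 2)) ^ 2 * (2 * (1 / cc) ^ 2)) := by
      rw [Real.sqrt_mul (x := (8 * cs / (Real.pi / 2 + Real.sqrt 2)) ^ 2) (by positivity),
        Real.sqrt_sq hA]
    have e2 : 2 * Real.sqrt (Real.pi * Real.cos (Real.pi / n) ^ 2) =
        Real.sqrt (4 * (Real.pi * Real.cos (Real.pi / n) ^ 2)) := by
      rw [Real.sqrt_mul (by norm_num : (0 : ℝ) ≤ 4), show (4 : ℝ) = 2 ^ 2 by norm_num,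
        Real.sqrt_sq (by norm_num : (0 : ℝ) ≤ 2)]
    rw [e1, e2]
    exact Real.sqrt_lt_sqrt (by positivity) h3

end Pool.Agent.Results.MP_4eea03_an.NotRegular
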